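import Pool.Agent.helper11.VDI.SpecC
import Pool.Agent.helper48.VD.BC2D
import Pool.Agent.helper89.VD.BC1D

/-!
Project INF (MP_07c750_an), row vdi:BC1B: one frequency, all smooth families
-/

set_option autoImplicit false

open scoped ContDiff Topology InnerProductSpace ENNReal ComplexConjugate
open MeasureTheory Filter Set

namespace Pool.Agent.VDI

open Pool.Agent.RPQ (PN PJ UN upd IsOp)
open Pool.Agent.VQ (CH AdZ perZ rk)
open Pool.Agent.VN (aN)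
open Pool.Agent.VD
open Pool.Agent.VDE (UWLD FDX)

noncomputable section

variable {d : ℕ}

/-- the number of cells -/
theorem BC1B_count {m N : ℕ} {R C l : ℝ} (hR : 1 ≤ R) (hc : C ≤ R) (hN : (N : ℝ) ≤ C * (1 / R ^ (-l)) ^ m) :
    (N : ℝ) * R ^ (-(5 + l * (m : ℝ))) ≤ R ^ (-4 : ℝ) := by
  have hR0 : 0 < R := by linarith
  have e1 : (1 / R ^ (-l)) ^ m = R ^ (l * (m : ℝ)) := by
    rw [Real.rpow_neg hR0.le, one_div, inv_inv, ← Real.rpow_natCast, ← Real.rpow_mul hR0.le]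
  rw [e1] at hN
  have h2 : (N : ℝ) ≤ R ^ (1 + l * (m : ℝ)) := by
    refine hN.trans ?_
    rw [Real.rpow_add hR0, Real.rpow_one]
    exact mul_le_mul_of_nonneg_right hc (Real.rpow_nonneg hR0.le _)
  calc (N : ℝ) * R ^ (-(5 + l * (m : ℝ))) ≤ R ^ (1 + l * (m : ℝ)) * R ^ (-(5 + l * (m : ℝ))) :=
        mul_le_mul_of_nonneg_right h2 (Real.rpow_nonneg hR0.le _)
    _ = R ^ (-4 : ℝ) := by
        rw [← Real.rpow_add hR0]
        congr 1
        ring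

/-- the thresholds -/
theorem BC1B_num {A CN e η0 R l : ℝ} (hA : 0 ≤ A) (hCN : 1 ≤ CN) (he : 0 < e) (hR : 1 ≤ R) (hl : 1 ≤ l) (hη0 : 0 < η0) (h1 : A / η0 ≤ R) (h2 : CN * A * (2 * (3 + e) / e) ≤ R) :
    0 ≤ A * R ^ (-l) ∧ A * R ^ (-l) ≤ η0 ∧ CN * (A * R ^ (-l)) ≤ e / (2 * (3 + e)) := by
  have hR0 : 0 < R := by linarith
  have hl1 : R ^ (-l) ≤ 1 / R := by
    have h3 : R ^ (-l) ≤ R ^ (-1 : ℝ) := Real.rpow_le_rpow_of_exponent_le hR (by linarith)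
    rwa [Real.rpow_neg_one, ← one_div] at h3
  have hl0 : 0 ≤ R ^ (-l) := Real.rpow_nonneg hR0.le _
  refine ⟨mul_nonneg hA hl0, ?_, ?_⟩
  · have h3 : A ≤ R * η0 := by rwa [div_le_iff₀ hη0] at h1
    calc A * R ^ (-l) ≤ A * (1 / R) := mul_le_mul_of_nonneg_left hl1 hA
      _ ≤ (R * η0) * (1 / R) := mul_le_mul_of_nonneg_right h3 (by positivity)
      _ = η0 := by field_simp
  · have h5 : CN * A ≤ e / (2 * (3 + e)) * R := by
      rw [div_mul_eq_mul_div, le_div_iff₀ (by positivity)]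
      calc CN * A * (2 * (3 + e)) = CN * A * (2 * (3 + e) / e) * e := by field_simp
        _ ≤ R * e := mul_le_mul_of_nonneg_right h2 he.le
        _ = e * R := by ring
    calc CN * (A * R ^ (-l)) = CN * A * R ^ (-l) := by ring
      _ ≤ CN * A * (1 / R) := mul_le_mul_of_nonneg_left hl1 (by positivity)
      _ ≤ e / (2 * (3 + e)) * R * (1 / R) := mul_le_mul_of_nonneg_right h5 (by positivity)
      _ = e / (2 * (3 + e)) := by field_simp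

theorem BC1B_proof (hPRDB : PRDB_stmt) (hTLD : VD.TLD_stmt) (hGFL : VD.GFL_stmt) (hGIN : VN.GIN_stmt) (hRND : VQ.RND_stmt) (hRSB : VQ.RSB_stmt) (hCEL : CEL_stmt) (hNRL : NRL_stmt) (hNNB : NNB_stmt) (hMVE : VD.MVE_stmt) : BC1B_stmt := by
  intro d Γ _ _ K F0 r0 χ0 ch Cn k0 J p χ m Gs hd hK hF hPU hch hFam hSF k B S h e hS hh he
  obtain ⟨Bs, R1, hR1, hT⟩ := hTLD d Γ K Cn k0 J p χ hK hFam
  obtain ⟨bn, hbn⟩ := hNRL d Γ K Cn k0 J p χ m Gs S hK hFam hSF hS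
  obtain ⟨v0, hv0, hP2⟩ := hPRDB d Γ K F0 r0 χ0 ch k B Bs bn Cn hd hK hF hPU hch h (e / 2) hh (half_pos he)
  refine ⟨v0, hv0, ?_⟩
  intro T0 hT0
  have hLX : (1 : ℝ) ≤ LX d := by
    unfold LX
    have : (0 : ℝ) ≤ d := Nat.cast_nonneg d
    linarith
  obtain ⟨a, R0, C2, ha, hR0, hC2, hP3⟩ := hP2 T0 (5 + LX d * (m : ℝ)) hT0 (by positivity)
  obtain ⟨R2, hR2, hG⟩ := hGIN a C2 k0 ha
  obtain ⟨CE, hCE, hcel⟩ := hCEL m S hS
  obtain ⟨rK, hrK⟩ := hK.compact.isBounded.exists_norm_le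
  obtain ⟨mK, hmK⟩ := exists_nat_ge rK
  obtain ⟨CN, η0, hCN, hη0, hNN⟩ := hNNB d (max 1 (B mK 0)) (le_max_left _ _)
  obtain ⟨A, hAd⟩ : ∃ A : ℝ, A = |bn mK| := ⟨_, rfl⟩
  have hA : 0 ≤ A := by
    rw [hAd]
    exact abs_nonneg _
  obtain ⟨R3, hR3d⟩ : ∃ R3 : ℝ, R3 = max CE (max (A / η0) (CN * A * (2 * (3 + e) / e))) := ⟨_, rfl⟩
  refine ⟨⌈(max (max R0 R3) (max R1 R2)) ^ 2⌉₊, ?_⟩
  intro i hi
  have hsq : max (max R0 R3) (max R1 R2) ≤ Real.sqrt i := by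
    apply Real.le_sqrt_of_sq_le
    have h1 := Nat.le_ceil ((max (max R0 R3) (max R1 R2)) ^ 2)
    have h2 : ((⌈(max (max R0 R3) (max R1 R2)) ^ 2⌉₊ : ℕ) : ℝ) ≤ i := by exact_mod_cast hi
    exact h1.trans h2
  have hRa : R0 ≤ Real.sqrt i := ((le_max_left _ _).trans (le_max_left _ _)).trans hsq
  have hRb : R1 ≤ Real.sqrt i := ((le_max_left _ _).trans (le_max_right _ _)).trans hsq
  have hRc : R2 ≤ Real.sqrt i := ((le_max_right _ _).trans (le_max_right _ _)).trans hsq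
  have hRd : R3 ≤ Real.sqrt i := ((le_max_right _ _).trans (le_max_left _ _)).trans hsq
  have hRe : CE ≤ Real.sqrt i := by
    rw [hR3d] at hRd
    exact (le_max_left _ _).trans hRd
  have hRf : A / η0 ≤ Real.sqrt i := by
    rw [hR3d] at hRd
    exact ((le_max_left _ _).trans (le_max_right _ _)).trans hRd
  have hRg : CN * A * (2 * (3 + e) / e) ≤ Real.sqrt i := by
    rw [hR3d] at hRd
    exact ((le_max_right _ _).trans (le_max_right _ _)).trans hRd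
  have hi1 : 1 ≤ i := by
    rcases Nat.eq_zero_or_pos i with h0 | h0
    · exfalso
      rw [h0, Nat.cast_zero, Real.sqrt_zero] at hRa
      linarith
    · exact h0
  obtain ⟨hn10, hn4⟩ := BC1D_num i hi1
  have hRpos : 0 < Real.sqrt i := by linarith
  have hR1' : 1 ≤ Real.sqrt i := by linarith
  obtain ⟨g1, g2, g3⟩ := BC1B_num hA hCN he hR1' hLX hη0 hRf hRg
  obtain ⟨K', hK0, hK1, hK2, hK3, hK4, hK5, hK6, hK7⟩ := hG (Real.sqrt i) hRc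
  obtain ⟨hT1, hT2⟩ := hT (Real.sqrt i) K' hRb hK2 hK3
  obtain ⟨T, hTc, r, v', hr, hv', hru, hrd⟩ := hRND J K' (i ^ 5) (Nat.one_le_pow _ _ hi1)
  -- the cells
  obtain ⟨N, cd, hN1, hN2, hN3⟩ := hcel (Real.sqrt i ^ (-LX d)) (Real.rpow_pos_of_pos hRpos _) (Real.rpow_le_one_of_one_le_of_nonpos hR1' (by linarith))
  -- the candidates
  obtain ⟨Cand, hCand⟩ : ∃ Cand : T → ℕ → V m → Prop, Cand = fun b c s => ‖s‖ ≤ S ∧ cd s = c ∧ Cls Γ K k B (cfm (bD χ K' (v' b)) (Gs s)) ∧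
      ∀ Φ : ℝ → P d → P d, IsFlow (cfm (bD χ K' (v' b)) (Gs s)) Φ → UWLD F0 (cfm (bD χ K' (v' b)) (Gs s)) Φ h (e / 1600) v0 T0 := ⟨_, rfl⟩
  have hsel : ∀ (b : T) (c : ℕ), ∃ s : V m, (∃ s', Cand b c s') → Cand b c s := by
    intro b c
    by_cases h1 : ∃ s', Cand b c s'
    · obtain ⟨s', hs'⟩ := h1
      exact ⟨s', fun _ => hs'⟩
    · exact ⟨0, fun h2 => absurd h2 h1⟩
  choose s0 hs0 using hsel
  refine ⟨K', fun ζ => v' (r ζ), hK2, hK3, fun ζ q => hv' (r ζ) q, ?_, ?_⟩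
  · intro ζ hζ q hq1 hq2 hq3
    rw [hn10]
    exact hrd ζ hζ q hq1 hq2 hq3
  have hone : ∀ (b : T) (c : ℕ), PJ (J K') {ξ | Cand b c (s0 b c) ∧
      ¬ GdB Γ K k B Bs bn F0 h (e / 2) (Real.sqrt i) (cfm (bD χ K' (v' b)) (Gs (s0 b c))) (fun x => wD χ K' (v' b) x + aN K' * VF (χ K') ξ x)} ≤ ENNReal.ofReal (Real.sqrt i ^ (-(5 + LX d * (m : ℝ)))) := by
    intro b c
    by_cases hU : Cand b c (s0 b c)
    · have hU' := hU
      rw [hCand] at hU'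
      obtain ⟨-, -, hU2, hU3⟩ := hU'
      obtain ⟨Φ, hΦ⟩ := hGFL d Γ K _ hK hU2.met hU2.isom
      have hU4 : UWLD F0 (cfm (bD χ K' (v' b)) (Gs (s0 b c))) Φ h (e / 2 / 800) v0 T0 := by
        have e1 : e / 2 / 800 = e / 1600 := by ring
        rw [e1]
        exact hU3 Φ hΦ
      have h1 := hP3 (Real.sqrt i) (rk K') (aN K') (J K') (p K') (χ K') (wD χ K' (v' b)) (cfm (bD χ K' (v' b)) (Gs (s0 b c))) Φ hRa (Real.exp_pos _) hK5 hK6 (hFam.net K' hK0) hU2 hΦ hU4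
        (fun ξ hξ => hT1 (v' b) ξ (hv' b) hξ)
      refine le_trans (measure_mono ?_) h1
      intro ξ hξ
      exact hξ.2
    · have h1 : {ξ : Fin (J K') → ℝ | Cand b c (s0 b c) ∧
          ¬ GdB Γ K k B Bs bn F0 h (e / 2) (Real.sqrt i) (cfm (bD χ K' (v' b)) (Gs (s0 b c))) (fun x => wD χ K' (v' b) x + aN K' * VF (χ K') ξ x)} = ∅ := by
        ext ξ
        constructor
        · intro hξ
          exact absurd hξ.1 hU
        · intro hξ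
          exact absurd hξ (Set.notMem_empty _)
      rw [h1, measure_empty]
      exact bot_le
  have hE : ∀ b : T, PJ (J K') {ξ | ∃ c ∈ Finset.range N, Cand b c (s0 b c) ∧
      ¬ GdB Γ K k B Bs bn F0 h (e / 2) (Real.sqrt i) (cfm (bD χ K' (v' b)) (Gs (s0 b c))) (fun x => wD χ K' (v' b) x + aN K' * VF (χ K') ξ x)} ≤ ENNReal.ofReal ((i : ℝ) ^ (-2 : ℝ)) := by
    intro b
    have h1 : {ξ : Fin (J K') → ℝ | ∃ c ∈ Finset.range N, Cand b c (s0 b c) ∧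
      ¬ GdB Γ K k B Bs bn F0 h (e / 2) (Real.sqrt i) (cfm (bD χ K' (v' b)) (Gs (s0 b c))) (fun x => wD χ K' (v' b) x + aN K' * VF (χ K') ξ x)} ⊆
        ⋃ c ∈ Finset.range N, {ξ | Cand b c (s0 b c) ∧
      ¬ GdB Γ K k B Bs bn F0 h (e / 2) (Real.sqrt i) (cfm (bD χ K' (v' b)) (Gs (s0 b c))) (fun x => wD χ K' (v' b) x + aN K' * VF (χ K') ξ x)} := by
      intro ξ hξ
      obtain ⟨c, hc1, hc2⟩ := hξ
      exact Set.mem_biUnion (show c ∈ ((Finset.range N : Finset ℕ) : Set ℕ) from hc1) hc2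
    refine (measure_mono h1).trans ((measure_biUnion_finset_le (Finset.range N) _).trans ?_)
    refine (Finset.sum_le_sum fun c _ => hone b c).trans ?_
    rw [Finset.sum_const, nsmul_eq_mul, ← hn4, Finset.card_range]
    have h2 : ((N : ℕ) : ENNReal) = ENNReal.ofReal (N : ℝ) := by
      rw [ENNReal.ofReal_natCast]
    rw [h2, ← ENNReal.ofReal_mul (by positivity)]
    exact ENNReal.ofReal_le_ofReal (BC1B_count hR1' hRe hN1)
  have hfin := hRSB K' (J K') T r (ENNReal.ofReal ((i : ℝ) ^ (-2 : ℝ))) (fun b => {ξ | ∃ c ∈ Finset.range N, Cand b c (s0 b c) ∧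
      ¬ GdB Γ K k B Bs bn F0 h (e / 2) (Real.sqrt i) (cfm (bD χ K' (v' b)) (Gs (s0 b c))) (fun x => wD χ K' (v' b) x + aN K' * VF (χ K') ξ x)}) hr hru hE
  refine le_trans (measure_mono ?_) hfin
  intro ζ hζ
  obtain ⟨hζ1, s, hsS, hζP, hζ2, μ, φ, hμ, hμ1, hφ, hlt⟩ := hζ
  -- the cell of `s`
  have hcan : Cand (r ζ) (cd s) s := by
    rw [hCand]
    exact ⟨hsS, rfl, hζP, hζ2⟩
  have hcan' := hs0 (r ζ) (cd s) ⟨s, hcan⟩
  refine ⟨cd s, Finset.mem_range.2 (hN2 s hsS), hcan', ?_⟩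
  intro hGd
  obtain ⟨sc, hsc⟩ : ∃ sc : V m, sc = s0 (r ζ) (cd s) := ⟨_, rfl⟩
  rw [← hsc] at hcan' hGd
  rw [hCand] at hcan'
  obtain ⟨hc1, hc2, hc3, hc4⟩ := hcan'
  have hnr : Nr Γ K k B bn (Real.sqrt i) (cfm (bD χ K' (v' (r ζ))) (Gs sc)) (cfm (bD χ K' (v' (r ζ))) (Gs s)) :=
    hbn k B (Real.sqrt i) K' (v' (r ζ)) sc s hR1' (hv' (r ζ)) hc1 hsS (hN3 sc s hc1 hsS hc2) hζP
  obtain ⟨hsm, hcl⟩ := hT2 ζ (v' (r ζ)) hζ1 (hv' (r ζ)) (fun q hq1 hq2 hq3 => by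
    rw [hn10]
    exact hrd ζ hζ1 q hq1 hq2 hq3)
  have hφ' : Eigenfunction Γ (cfm (fun x => rD χ ζ x - bD χ K' (v' (r ζ)) x) (cfm (bD χ K' (v' (r ζ))) (Gs s))) μ φ := by
    rw [BC1D_cfm]
    exact hφ
  have h5 := hGd _ _ μ φ hnr hsm hcl hμ hμ1 hφ'
  -- comparison of the two metrics
  have hloc : ∀ x ∈ F0, (∀ u : V d, ‖u‖ ^ 2 ≤ max 1 (B mK 0) * ⟪cfm (bD χ K' (v' (r ζ))) (Gs sc) x u, u⟫_ℝ) ∧
      ‖cfm (bD χ K' (v' (r ζ))) (Gs sc) x - cfm (bD χ K' (v' (r ζ))) (Gs s) x‖ ≤ A * Real.sqrt i ^ (-LX d) := by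
    intro x hx
    have hxm : ‖x‖ ≤ mK := (hrK x (hF.sub hx)).trans hmK
    refine ⟨fun u => ?_, ?_⟩
    · have h6 : 0 ≤ ⟪cfm (bD χ K' (v' (r ζ))) (Gs sc) x u, u⟫_ℝ := by
        by_cases hu : u = 0
        · rw [hu]; simp
        · exact (hc3.met.pos x u hu).le
      exact (hc3.lo mK x u hxm).trans (mul_le_mul_of_nonneg_right (le_max_right _ _) h6)
    · have h6 := hnr.cl mK 0 x (by norm_num) hxm
      rw [norm_iteratedFDeriv_zero] at h6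
      refine h6.trans ?_
      rw [hAd]
      exact mul_le_mul_of_nonneg_right (le_abs_self _) (Real.rpow_nonneg hRpos.le _)
  obtain ⟨n1, n2, n3⟩ := hNN (cfm (bD χ K' (v' (r ζ))) (Gs sc)) (cfm (bD χ K' (v' (r ζ))) (Gs s)) h φ F0 rK (A * Real.sqrt i ^ (-LX d)) hc3.met hζP.met g1 g2
    hF.meas (fun x hx => hrK x (hF.sub hx)) hloc hφ.1.continuous hh.smooth.continuous hh.bd
  have hmn := (hMVE d (cfm (bD χ K' (v' (r ζ))) (Gs s)) hζP.met).2.2.2.2 F0 h hF.meas hh.bd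
  exact absurd hlt (not_lt.mpr (BC2D_real he hCN g1 g3 n1 n2 n3 hmn (integral_nonneg fun x => by positivity) h5))

end

end Pool.Agent.VDI
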