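import Pool.Agent.helper11.VDI.SpecC
import Pool.Agent.helper83.VD.CFC

/-!
# Project INF (MP_07c750_an), row LBZ
-/

set_option autoImplicit false

open scoped ContDiff Topology InnerProductSpace ENNReal ComplexConjugate
open MeasureTheory Filter Set

namespace Pool.Agent.VDI

open Pool.Agent.VD

theorem LBZ_proof : LBZ_stmt := by
  intro d n M hM
  obtain ⟨A, hA⟩ : ∃ A : ℝ, A = n.factorial * Real.exp M * M ^ n := ⟨_, rfl⟩
  have hA1 : 1 ≤ A := by
    have hn1 : (1 : ℝ) ≤ n.factorial := by exact_mod_cast Nat.one_le_iff_ne_zero.2 (Nat.factorial_ne_zero n)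
    have h2 : 1 ≤ Real.exp M := Real.one_le_exp (by linarith)
    have h3 : 1 ≤ M ^ n := one_le_pow₀ hM
    rw [hA]
    have h4 : 1 ≤ (n.factorial : ℝ) * Real.exp M := by nlinarith
    nlinarith
  refine ⟨2 ^ n * A, ?_, ?_⟩
  · have h1 : (1 : ℝ) ≤ 2 ^ n := one_le_pow₀ (by norm_num)
    nlinarith
  · intro f G x s hf hG _ hb
    exact CFC_prod n A s (fun y => Real.exp (f y)) G x (Real.contDiff_exp.comp hf) hG
      (fun i hi => by
        rw [hA]
        exact CFC_expb n M hM f x hf (fun j hj => (hb j hj).1) i hi) (fun i hi => (hb i hi).2) n le_rfl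

end Pool.Agent.VDI
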