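import Pool.Agent.helper1.VDI.UBL
import Pool.Agent.helper11.VDI.BC1B
import Pool.Agent.helper11.VDI.LBZ
import Pool.Agent.helper13.VDI.NRL
import Pool.Agent.helper20.VDI.EG0B
import Pool.Agent.helper21.VDI.BC2U
import Pool.Agent.helper22.VDI.DTDB
import Pool.Agent.helper23.VDI.QRB
import Pool.Agent.helper26.VDI.FNWU
import Pool.Agent.helper26.VDI.PODU
import Pool.Agent.helper40.VDI.EEDB
import Pool.Agent.helper40.VDI.NNB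
import Pool.Agent.helper43.VDI.BCB
import Pool.Agent.helper43.VDI.FNFU
import Pool.Agent.helper43.VDI.NGB
import Pool.Agent.helper48.VDI.NGM
import Pool.Agent.helper50.VDI.NGQ
import Pool.Agent.helper51.VDI.EETB
import Pool.Agent.helper53.VDI.CEL
import Pool.Agent.helper54.VDI.FBL
import Pool.Agent.helper54.VDI.LPB
import Pool.Agent.helper55.VDI.EEAB
import Pool.Agent.helper55.VDI.EESB
import Pool.Agent.helper55.VDI.EF3B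
import Pool.Agent.helper55.VDI.EF8B
import Pool.Agent.helper55.VDI.EG3B
import Pool.Agent.helper55.VDI.EG8B
import Pool.Agent.helper55.VDI.EO1B
import Pool.Agent.helper65.VDI.GWB
import Pool.Agent.helper67.VDI.RHB
import Pool.Agent.helper71.VDI.DNB
import Pool.Agent.helper71.VDI.EE2B
import Pool.Agent.helper74.VDI.LPA
import Pool.Agent.helper78.VDI.PODF
import Pool.Agent.helper92.VDI.EEBB
import Pool.Agent.helper96.VDI.PRDB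
import Pool.Agent.helper11.VD.AllD

/-!
# MP_07c750_an, project INF: assembly (all smooth families of metrics, uniformly)
-/

set_option autoImplicit false

open scoped MatrixGroups ContDiff Topology UpperHalfPlane ComplexConjugate
open UpperHalfPlane MeasureTheory Filter Set

namespace Pool.Agent.AllI

open Pool.Agent

theorem A_VDI_FBL : VDI.FBL_stmt := VDI.FBL_proof 
theorem A_VDI_PODF : VDI.PODF_stmt := VDI.PODF_proof AllD.A_VD_POD AllD.A_VD_CFC A_VDI_FBL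
theorem A_VDI_NGM : VDI.NGM_stmt := VDI.NGM_proof AllD.A_VD_RSY AllD.A_VD_RCN AllD.A_VD_NAT
theorem A_VDI_NGQ : VDI.NGQ_stmt := VDI.NGQ_proof AllD.A_VD_RSY AllD.A_VD_RCN
theorem A_VDI_LBZ : VDI.LBZ_stmt := VDI.LBZ_proof 
theorem A_VDI_PODU : VDI.PODU_stmt := VDI.PODU_proof A_VDI_PODF A_VDI_NGM A_VDI_NGQ AllD.A_VD_CFC A_VDI_FBL A_VDI_LBZ
theorem A_VDI_BC2U : VDI.BC2U_stmt := VDI.BC2U_proof AllD.A_VDE_IUD AllD.A_VD_SED A_VDI_PODU AllD.A_VD_CFC A_VDI_FBL A_VDI_LBZ AllD.A_VD_NNC AllD.A_VD_MVE RPQ.A_RSM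
theorem A_VDI_LPA : VDI.LPA_stmt := VDI.LPA_proof 
theorem A_VDI_RHB : VDI.RHB_stmt := VDI.RHB_proof A_VDI_LPA AllD.A_VD_AHLD AllD.A_VD_AMVI
theorem A_VDI_QRB : VDI.QRB_stmt := VDI.QRB_proof A_VDI_RHB AllD.A_VD_AMVI
theorem A_VDI_GWB : VDI.GWB_stmt := VDI.GWB_proof A_VDI_LPA AllD.A_VD_AHLD
theorem A_VDI_EE2B : VDI.EE2B_stmt := VDI.EE2B_proof A_VDI_RHB A_VDI_QRB A_VDI_GWB AllD.A_VD_AMVI AllD.A_VD_ADMD AllD.A_VD_AQSD AllD.A_VD_AISD AllD.A_VD_AQAD AllD.A_VD_AELD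
theorem A_VDI_EEDB : VDI.EEDB_stmt := VDI.EEDB_proof AllD.A_VD_ABMR AllD.A_VD_ACNF AllD.A_VD_AMVI
theorem A_VDI_LPB : VDI.LPB_stmt := VDI.LPB_proof A_VDI_LPA
theorem A_VDI_BCB : VDI.BCB_stmt := VDI.BCB_proof AllD.A_VD_ABMP AllD.A_VD_ABMR AllD.A_VD_ACNF
theorem A_VDI_UBL : VDI.UBL_stmt := VDI.UBL_proof AllD.A_VD_AMVI AllD.A_VD_AHLD AllD.A_VD_ASGF
theorem A_VDI_EEBB : VDI.EEBB_stmt := VDI.EEBB_proof A_VDI_LPA A_VDI_LPB A_VDI_BCB A_VDI_UBL AllD.A_VD_EHG AllD.A_VD_EHC AllD.A_VD_EYP AllD.A_VD_AVOL AllD.A_VD_ABRD AllD.A_VD_ABMR AllD.A_VD_AMVI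
theorem A_VDI_EETB : VDI.EETB_stmt := VDI.EETB_proof AllD.A_VDA_EAX A_VDI_EEDB A_VDI_EEBB AllD.A_VD_EEF AllD.A_VD_EYP AllD.A_VD_ASAD AllD.A_VD_AFBD AllD.A_VD_AFMD AllD.A_VD_AFRD AllD.A_VD_AMVI
theorem A_VDI_EO1B : VDI.EO1B_stmt := VDI.EO1B_proof AllD.A_VD_AMVI AllD.A_VD_EYP AllD.A_VD_AQSD AllD.A_VD_AFMD AllD.A_VD_AFRD AllD.A_VD_ASAD AllD.A_VD_AUMD AllD.A_VD_ATSD A_VDI_EE2B A_VDI_EETB AllD.A_VD_EEY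
theorem A_VDI_EF3B : VDI.EF3B_stmt := VDI.EF3B_proof AllD.A_VD_EST AllD.A_VDA_EAM AllD.A_VDA_EAZ A_VDI_EO1B A_VDI_EE2B AllD.A_VD_EEY AllD.A_VD_AUMD AllD.A_VD_ATND AllD.A_VD_LEN AllD.A_VD_AMVI AllD.A_VD_ADMD
theorem A_VDI_EG0B : VDI.EG0B_stmt := VDI.EG0B_proof AllD.A_VD_AQAD AllD.A_VD_AQSD AllD.A_VD_AMVI
theorem A_VDI_EG3B : VDI.I3B_stmt := VDI.EG3B_proof A_VDI_EF3B A_VDI_EG0B AllD.A_VD_EE1 AllD.A_VD_EST AllD.A_VDA_EAO AllD.A_VDA_EAZ AllD.A_VD_ATND AllD.A_VD_AUMD AllD.A_VD_LEN AllD.A_VD_AMVI AllD.A_VD_EYP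
theorem A_VDI_EESB : VDI.EESB_stmt := VDI.EESB_proof A_VDI_EETB AllD.A_VD_EEF A_VDI_EE2B AllD.A_VD_ASAD AllD.A_VD_AFRD AllD.A_VD_AFMD AllD.A_VD_AMVI AllD.A_VD_EYP
theorem A_VDI_EEAB : VDI.EEAB_stmt := VDI.EEAB_proof AllD.A_VD_EEH A_VDI_EESB AllD.A_VD_EYP A_VDI_EE2B
theorem A_VDI_EF8B : VDI.EF8B_stmt := VDI.EF8B_proof AllD.A_VD_CTD AllD.A_VD_LEN AllD.A_VD_EST AllD.A_VDA_EAT A_VDI_EEAB A_VDI_EO1B A_VDI_EE2B AllD.A_VD_EEY AllD.A_VD_AUMD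
theorem A_VDI_EG8B : VDI.I8B_stmt := VDI.EG8B_proof A_VDI_EF8B A_VDI_EG0B AllD.A_VD_EE1 AllD.A_VD_ADMD AllD.A_VD_AMVI
theorem A_VDI_DTDB : VDI.DTDB_stmt := VDI.DTDB_proof AllD.A_VD_DTA AllD.A_VD_AI2D A_VDI_EG3B AllD.A_VD_AI4D A_VDI_EG8B AllD.A_VD_PSY AllD.A_VD_KZD AllD.A_VD_MTD AllD.A_VD_MVE AllD.A_VD_LEN AllD.A_VD_CTD AllD.A_VQ_KSZ AllD.A_VD_VLD
theorem A_VDI_PRDB : VDI.PRDB_stmt := VDI.PRDB_proof A_VDI_DTDB AllD.A_VD_VHPD AllD.A_VD_WXD AllD.A_VQ_PIZ AllD.A_VQ_KSZ AllD.A_VD_PSY AllD.A_VD_KZD AllD.A_VD_MTD AllD.A_VD_VLD AllD.A_VD_LEN AllD.A_VD_CTD RPQ.A_SNC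
theorem A_VDI_CEL : VDI.CEL_stmt := VDI.CEL_proof 
theorem A_VDI_NRL : VDI.NRL_stmt := VDI.NRL_proof A_VDI_FBL AllD.A_VD_SED A_VDI_LBZ
theorem A_VDI_DNB : VDI.DNB_stmt := VDI.DNB_proof 
theorem A_VDI_NNB : VDI.NNB_stmt := VDI.NNB_proof A_VDI_DNB AllD.A_VD_MVE
theorem A_VDI_BC1B : VDI.BC1B_stmt := VDI.BC1B_proof A_VDI_PRDB AllD.A_VD_TLD AllD.A_VD_GFL AllD.A_VN_GIN AllD.A_VQ_RND AllD.A_VQ_RSB A_VDI_CEL A_VDI_NRL A_VDI_NNB AllD.A_VD_MVE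
theorem A_VDI_FNFU : VDI.FNFU_stmt := VDI.FNFU_proof A_VDI_BC2U A_VDI_BC1B AllD.A_VD_FMD AllD.A_VD_SED AllD.A_VD_LND AllD.A_VD_MVE RPQ.A_RSM AllD.A_VD_APUE
theorem A_VDI_NGB : VDI.NGB_stmt := VDI.NGB_proof A_VDI_NGM A_VDI_FBL AllD.A_VD_CFC
theorem A_VDI_FNWU : VDI.FNWU_stmt := VDI.FNWU_proof A_VDI_FNFU AllD.A_VD_FTR A_VDI_NGB AllD.A_VD_FPS AllD.A_VD_DFD AllD.A_VD_CFC RPQ.A_RSM

end Pool.Agent.AllI
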