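import Pool.Agent.helper74.VDI.SpecB0

/-!
# Project INF (MP_07c750_an), version B: ALL smooth families; part C: Borel-Cantelli for all parameters; rows `vdi:X`

RULES. Row `vdi:XXX`: file `Pool/Agent/<seat>/VDI/XXX.lean`, `import Pool.Agent.helper11.VDI.SpecC`, `set_option autoImplicit false`, namespace `Pool.Agent.VDI`, the `open` lines of this file, auxiliary lemmas prefixed `XXX_`, theorem `XXX_proof (h..) : XXX_stmt` (rows listed in `from` may be used as hypotheses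
`(h : YYY_stmt)`; rows of RPQ, VQ, VN, VD as `(h : VD.YYY_stmt)` etc.; proved files may be imported). No `convert`, `congr!`, `native_decide`, no double quotes, no `private`, no commands starting with a sharp sign.
-/

set_option autoImplicit false

open scoped ContDiff Topology InnerProductSpace ENNReal ComplexConjugate
open MeasureTheory Filter Set

namespace Pool.Agent.VDI

open Pool.Agent.RPQ (PN PJ UN upd IsOp)
open Pool.Agent.VQ (CH AdZ perZ rk)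
open Pool.Agent.VN (aN)
open Pool.Agent.VD
open Pool.Agent.VDE (UWLD FDX)

noncomputable section

/-- **Row CEL** (cells in the ball of parameters; short; PURE). `n = ⌈(m + 1)/δ⌉₊`, the code `q s = (⌊(s j + S) n⌋₊)_j : Fin m → ℕ`; for `‖s‖ ≤ S`: `0 ≤ s j + S ≤ 2 S`, so `q s j ≤ 2 S n`; equal codes give `|s j - s' j| ≤ 1/n ≤ δ/(m + 1)` for all `j`, so `‖s - s'‖ ≤ ∑ |s j - s' j| ≤ δ`. There are at most
`(2 S n + 1)^m` codes, `2 S n + 1 ≤ (2 S + 1)(m + 2)/δ`: `C = ((2 S + 1)(m + 2))^m`. `c` = the code composed with an injection of the finite set of codes into `ℕ` (`Finset.equivFin`, or mixed radix). -/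
def CEL_stmt : Prop := ∀ (m : ℕ) (S : ℝ), 0 ≤ S → ∃ C : ℝ, 1 ≤ C ∧ ∀ δ : ℝ, 0 < δ → δ ≤ 1 → ∃ (N : ℕ) (c : V m → ℕ), (N : ℝ) ≤ C * (1 / δ) ^ m ∧ (∀ s : V m, ‖s‖ ≤ S → c s < N) ∧
  ∀ s s' : V m, ‖s‖ ≤ S → ‖s'‖ ≤ S → c s = c s' → ‖s - s'‖ ≤ δ

/-- **Row DNB** (the density of a nearby metric; short-medium; PURE linear algebra). `G x` is invertible (positive definite), `‖(G x).inverse‖ ≤ M` (from the lower bound: `‖u‖² ≤ M ‖G x u‖ ‖u‖`). `G' x = G x ∘ (1 + A)`, `A = (G x).inverse ∘ (G' x - G x)`, `‖A‖ ≤ M η`. `det (1 + A)`: `|det (1 + A) - 1| ≤ C' M η` for `M η ≤ 1`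
(the determinant of operators is smooth, hence Lipschitz on the ball of radius `1` around the identity: see `SMG` in helper62/VD/SpecE2.lean for the continuity of the determinant; or the matrix entries are at most `M η` and `Matrix.det_apply`). `dens G' = dens G * sqrt (det (1 + A))`, `|sqrt t - 1| ≤ |t - 1|` for `0 ≤ t`. -/
def DNB_stmt : Prop := ∀ (d : ℕ) (M : ℝ), 1 ≤ M → ∃ C η0 : ℝ, 1 ≤ C ∧ 0 < η0 ∧ ∀ (G G' : V d → V d →L[ℝ] V d) (x : V d) (η : ℝ), IsMetric G → IsMetric G' → 0 ≤ η → η ≤ η0 →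
  (∀ u : V d, ‖u‖ ^ 2 ≤ M * ⟪G x u, u⟫_ℝ) → ‖G x - G' x‖ ≤ η → |dens G' x - dens G x| ≤ C * η * dens G x

/-- **Row NNB** (norms and means of a nearby metric; short; adaptation of helper38/VD/NNC.lean, whose lemmas can be imported; from DNB, MVE). As NNC with `dens G'` instead of `dens (cfm f G)`, the comparison of the densities holds on `F` only (`setIntegral_congr_fun`, `norm_setIntegral_le_of_norm_le`-like on `volume.restrict F`: use `ae_restrict_of_forall_mem`). `η0` of DNB. -/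
def NNB_stmt : Prop := ∀ (d : ℕ) (M : ℝ), 1 ≤ M → ∃ C η0 : ℝ, 1 ≤ C ∧ 0 < η0 ∧ ∀ (G G' : V d → V d →L[ℝ] V d) (h : V d → ℝ) (φ : V d → ℂ) (F : Set (V d)) (b η : ℝ), IsMetric G → IsMetric G' → 0 ≤ η → η ≤ η0 → MeasurableSet F → (∀ x ∈ F, ‖x‖ ≤ b) →
  (∀ x ∈ F, (∀ u : V d, ‖u‖ ^ 2 ≤ M * ⟪G x u, u⟫_ℝ) ∧ ‖G x - G' x‖ ≤ η) → Continuous φ → Continuous h → (∀ x, 0 ≤ h x ∧ h x ≤ 1) →
    |(∫ x in F, h x * ‖φ x‖ ^ 2 ∂mv G') - ∫ x in F, h x * ‖φ x‖ ^ 2 ∂mv G| ≤ C * η * nn G F φ ∧ |nn G' F φ - nn G F φ| ≤ C * η * nn G F φ ∧ |mean G' F h - mean G F h| ≤ C * η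

/-- **Row LBZ** (Leibniz; short; PURE). `norm_iteratedFDeriv_smul_le` and the chain rule for `exp` (`norm_iteratedFDeriv_comp_le`); the lemmas of the proof of CFC (VD; `grep` for the file of `CFC_proof`) do exactly this. -/
def LBZ_stmt : Prop := ∀ (d n : ℕ) (M : ℝ), 1 ≤ M → ∃ C : ℝ, 1 ≤ C ∧ ∀ (f : V d → ℝ) (A : V d → V d →L[ℝ] V d) (x : V d) (s : ℝ), ContDiff ℝ ∞ f → ContDiff ℝ ∞ A → 0 ≤ s → (∀ i ≤ n, ‖iteratedFDeriv ℝ i f x‖ ≤ M ∧ ‖iteratedFDeriv ℝ i A x‖ ≤ s) →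
  ‖iteratedFDeriv ℝ n (fun y => Real.exp (f y) • A y) x‖ ≤ C * s

/-- **Row NRL** (nearby parameters give nearby metrics; short; from FBL, VD.SED, LBZ). `cls` is the hypothesis. `cfm f G1 y - cfm f G2 y = exp (f y) • (G1 y - G2 y)`; `f = bD χ K' v`: bounds of its derivatives of order `≤ 2` on the balls from SED (uniform in `K'`, `v`); FBL: `‖D^i (Gs s - Gs s')‖ ≤ b m' i ‖s - s'‖ ≤ b m' i R^(-LX d)`. LBZ for `n = 0, 1, 2`. -/
def NRL_stmt : Prop := ∀ (d : ℕ) (Γ : Type) [Group Γ] [MulAction Γ (V d)] (K : Set (V d)) (Cn : Set (V d) → ℕ → ℝ) (k0 : ℕ) (J : ℕ → ℕ) (p : (k : ℕ) → Fin (J k) → V d) (χ : (k : ℕ) → Fin (J k) → V d → ℝ) (m : ℕ) (Gs : V m → V d → V d →L[ℝ] V d) (S : ℝ),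
  FdK Γ K → FamD Γ K Cn k0 J p χ → SFm Γ m Gs → 0 ≤ S → ∃ b : ℕ → ℝ, ∀ (k : ℝ) (B : ℕ → ℕ → ℝ) (R : ℝ) (K' : ℕ) (v : ℕ × ℕ → ℝ) (s s' : V m), 1 ≤ R → (∀ q, |v q| ≤ 1) → ‖s‖ ≤ S → ‖s'‖ ≤ S → ‖s - s'‖ ≤ R ^ (-LX d) →
    Cls Γ K k B (cfm (bD χ K' v) (Gs s')) → Nr Γ K k B b R (cfm (bD χ K' v) (Gs s)) (cfm (bD χ K' v) (Gs s'))

/-- **Row BC1B** (one frequency, all smooth families; medium; adaptation of helper89/VD/BC1D.lean; from PRDB, VD.TLD, VD.GFL, VN.GIN, VQ.RND, VQ.RSB, CEL, NRL, NNB, VD.MVE). `Bs` from TLD, `bn` from NRL. PRDB with `e/2` (the weak law there is with `e/2/800 = e/1600`), `M0 = 5 + LX d * m`, `B' = Bs`. Cells: CEL with `δ = R^(-LX d)`, `R = sqrt i`: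
`N ≤ C R^(LX d * m)` cells. For each `b ∈ T` and each cell `c < N` choose, if it exists, a representative `s_(b,c)` with `‖s‖ ≤ S`, code `c`, `Cls Γ K k B G_(b,c)`, `G_(b,c) = cfm (bD χ K' (v b)) (Gs s_(b,c))` and `UWLD F0 G_(b,c) Φ h (e/1600) v0 T0` for every flow (a flow exists by GFL).
`E b = ⋃_(c < N) {ξ | the representative exists and ¬ GdB Γ K k B Bs bn F0 h (e/2) R G_(b,c) (wD + aN VF)}`: `PJ (E b) ≤ N R^(-5 - LX d * m) ≤ C R^(-5) ≤ R^(-4) = i^(-2)` for `R ≥ C` (finite union: `measure_biUnion_finset_le`). RSB.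
For `ζ` in the bad set of BCP with the parameter `s` and `c` its cell: the representative `s_c` exists (`s` is a candidate). NRL (for `s_c`, `s`; CEL): `Nr .. G_c G'`, `G' = cfm (bD χ K' (v ζ)) (Gs s)`. `f' = rD χ ζ - bD χ K' (v ζ)`: `cfm f' G' = cfm (rD χ ζ) (Gs s)` (`BC1D_cfm`), `SmS Γ Bs (R^(1/100)) R f'` and `|f' - (wD + aN VF)| ≤ R^(-3)` (TLD (2)).
So `GdB` gives the inequality with `e/2` for the measure of `G_c`; NNB with `G = G_c`, `G'`, `F = F0`, `η = (bn mK ⊔ 0) R^(-LX d)` (`mK ∈ ℕ` a bound of the norms on the compact set `K ⊇ F0`; `M = max 1 (B mK 0)`; `Nr.cl` for `n = 0`: `norm_iteratedFDeriv_zero`) and the numerical lemma `BC2D_real` of helper48/VD/BC2D.lean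
(`C η ≤ e/(2 (3 + e))` for large `i`) give the inequality with `e` for the measure of `G'`. -/
def BC1B_stmt : Prop := ∀ (d : ℕ) (Γ : Type) [Group Γ] [MulAction Γ (V d)] (K F0 : Set (V d)) (r0 : ℝ) (χ0 : V d → ℝ) (ch : ℝ → ℝ) (Cn : Set (V d) → ℕ → ℝ) (k0 : ℕ) (J : ℕ → ℕ) (p : (k : ℕ) → Fin (J k) → V d) (χ : (k : ℕ) → Fin (J k) → V d → ℝ) (m : ℕ) (Gs : V m → V d → V d →L[ℝ] V d),
  2 ≤ d → FdK Γ K → FDX Γ K F0 → PU Γ r0 χ0 → CH ch → FamD Γ K Cn k0 J p χ → SFm Γ m Gs → BCP Γ K F0 J χ Gs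

/-- **Row FNB** (the final theorem of version B; short; from FNWF, BC1B). `Q = fun m Gs => SFm Γ m Gs`. -/
def FNB_stmt : Prop := ∀ (d : ℕ) (Γ : Type) [Group Γ] [MulAction Γ (V d)], 2 ≤ d →
    (∀ γ : Γ, ContDiff ℝ ∞ fun x : V d => γ • x) → (∀ (γ : Γ) (x : V d), γ • x = x → γ = 1) →
    (∀ K : Set (V d), IsCompact K → {γ : Γ | ∃ x ∈ K, γ • x ∈ K}.Finite) → (∃ K : Set (V d), IsCompact K ∧ ∀ x : V d, ∃ γ : Γ, γ • x ∈ K) →
    ∃ (k₀ : ℕ) (J : ℕ → ℕ) (u : ℕ → ℕ → V d → ℝ), (∀ k, k₀ ≤ k → 1 ≤ J k) ∧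
      (∀ k j, ContDiff ℝ ∞ (u k j) ∧ Inv Γ (u k j) ∧ ∀ x, 0 ≤ u k j x) ∧
      (∀ L : Set (V d), IsCompact L → ∀ n : ℕ, ∃ c : ℕ → ℝ, Summable c ∧ ∀ (k : ℕ) (ξ : ℕ → ℝ), (∀ j, |ξ j| ≤ 1) →
        ∀ x ∈ L, ‖iteratedFDeriv ℝ n (fun x => ∑ j ∈ Finset.range (J k), ξ j * u k j x) x‖ ≤ c k) ∧
      (∀ ξ : ℕ × ℕ → ℝ, (∀ q, |ξ q| ≤ 1) → ContDiff ℝ ∞ (fun x => ∑' k, ∑ j ∈ Finset.range (J k), ξ (k, j) * u k j x)) ∧
      ∀ (m : ℕ) (Gs : V m → V d → V d →L[ℝ] V d), (ContDiff ℝ ∞ fun q : V m × V d => Gs q.1 q.2) → (∀ s, IsMetric (Gs s)) → (∀ s, IsoE Γ (Gs s)) →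
        (∀ᵐ ξ ∂(Measure.infinitePi fun _ : ℕ × ℕ => UN), ∀ s : V m, NegativelyCurved (cfm (fun x => ∑' k, ∑ j ∈ Finset.range (J k), ξ (k, j) * u k j x) (Gs s)) →
          ∀ F : Set (V d), IsFundamentalDomain Γ F (volume : Measure (V d)) → QUE Γ F (cfm (fun x => ∑' k, ∑ j ∈ Finset.range (J k), ξ (k, j) * u k j x) (Gs s))) ∧
        ∀ L : Set (V m), IsCompact L → (∀ s ∈ L, NegativelyCurved (Gs s)) → ∀ (L' : Set (V d)) (n₀ : ℕ) (τ : ℝ), IsCompact L' → 0 < τ → 0 < (Measure.infinitePi fun _ : ℕ × ℕ => UN) {ξ : ℕ × ℕ → ℝ |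
          (∀ n ≤ n₀, ∀ x ∈ L', ‖iteratedFDeriv ℝ n (fun x => ∑' k, ∑ j ∈ Finset.range (J k), ξ (k, j) * u k j x) x‖ ≤ τ) ∧
          ∀ s ∈ L, NegativelyCurved (cfm (fun x => ∑' k, ∑ j ∈ Finset.range (J k), ξ (k, j) * u k j x) (Gs s)) ∧
          ∀ F : Set (V d), IsFundamentalDomain Γ F (volume : Measure (V d)) → QUE Γ F (cfm (fun x => ∑' k, ∑ j ∈ Finset.range (J k), ξ (k, j) * u k j x) (Gs s))}

end

end Pool.Agent.VDI
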