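import Pool.Agent.helper11.VDI.SpecC

/-!
# Project INF (MP_07c750_an), version B, part U: quantum unique ergodicity UNIFORMLY on compact sets of parameters; rows `vdi:X`

RULES. Row `vdi:XXX`: file `Pool/Agent/<seat>/VDI/XXX.lean`, `import Pool.Agent.helper11.VDI.SpecU`, `set_option autoImplicit false`, namespace `Pool.Agent.VDI`, the `open` lines of this file, auxiliary lemmas prefixed `XXX_`, theorem `XXX_proof (h..) : XXX_stmt` (rows listed in `from` may be used as hypotheses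
`(h : YYY_stmt)`; rows of RPQ, VQ, VN, VD as `(h : VD.YYY_stmt)` etc.; proved files may be imported). No `convert`, `congr!`, `native_decide`, no double quotes, no `private`, no commands starting with a sharp sign.
-/

set_option autoImplicit false

open scoped ContDiff Topology InnerProductSpace ENNReal ComplexConjugate
open MeasureTheory Filter Set

namespace Pool.Agent.VDI

open Pool.Agent.RPQ (PN PJ UN upd IsOp)
open Pool.Agent.VQ (CH AdZ perZ rk)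
open Pool.Agent.VN (aN)
open Pool.Agent.VD
open Pool.Agent.VDE (UWLD FDX)

noncomputable section

variable {d : ℕ}

/-- quantum unique ergodicity for a set of metrics, uniformly -/
def QUS (Γ : Type) [Group Γ] [MulAction Γ (V d)] (F : Set (V d)) (A : Set (V d → V d →L[ℝ] V d)) : Prop :=
  ∀ h : V d → ℝ, Continuous h → Inv Γ h → ∀ ε : ℝ, 0 < ε → ∃ μ₀ : ℝ, ∀ G ∈ A, ∀ (μ : ℝ) (φ : V d → ℂ), μ₀ ≤ μ → Eigenfunction Γ G μ φ →
    |(∫ x in F, h x * ‖φ x‖ ^ 2 * dens G x) - (∫ x in F, h x * dens G x) / (∫ x in F, dens G x) * ∫ x in F, ‖φ x‖ ^ 2 * dens G x| ≤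
      ε * ∫ x in F, ‖φ x‖ ^ 2 * dens G x

/-- **Row NGQ** (curvature bounded away from `0` is an open condition on `K`; medium; adaptation of helper39/VD/POD.lean, with `G'` instead of `cfm f' G0` as in helper48/VDI/NGM.lean; from RSY, RCN). The argument of POD: `⟪G' R'(u,v)v,u⟫ ≤ -c0/2 ‖u‖²‖v‖²` for `u ⊥' v` (this is `keyK` of NGM.lean), and `‖u‖²‖v‖² ≥ Gram'/M²`;
for arbitrary `u`: `u = u' + a v`, `u' ⊥' v` (RSY). `q` a natural number with `1/q ≤ c0/(2 M²)`. Compactness of `K` only (`K` may be empty). -/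
def NGQ_stmt : Prop := ∀ (d : ℕ) (K : Set (V d)) (G0 : V d → V d →L[ℝ] V d), IsCompact K → IsMetric G0 → NegativelyCurved G0 → ∃ (q : ℕ) (σ : ℝ), 1 ≤ q ∧ 0 < σ ∧
  ∀ G' : V d → V d →L[ℝ] V d, IsMetric G' → (∀ n ≤ 2, DK K n (fun y => G0 y - G' y) σ) →
    ∀ x ∈ K, ∀ u v : V d, ⟪G' x (Riem G' x u v v), u⟫_ℝ ≤ -(1 / (q : ℝ)) * (⟪G' x u, u⟫_ℝ * ⟪G' x v, v⟫_ℝ - ⟪G' x u, v⟫_ℝ ^ 2)

/-- **Row PODU** (the class, uniformly near one parameter; short-medium; from PODF, NGM, NGQ, VD.CFC, FBL, LBZ). `B` from PODF (for `S`, `b`). NGQ and NGM for the metric `cfm f (Gs s0)`: `q`, `σ1`. For `‖s - s0‖ ≤ σ` and `f'` with `DK K n (f - f') σ`: `cfm f (Gs s0) - cfm f' (Gs s) = exp f • (Gs s0 - Gs s) + (cfm f (Gs s) - cfm f' (Gs s))`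
is at most `C σ ≤ σ1` on `K` (FBL, LBZ; CFC; `K` is contained in a ball of radius `m' ∈ ℕ`). So `neg` with `1/q` (NGQ), and `cfm f' (Gs s)` is negatively curved (NGM; `IsoE`: `FNWE_iso`). PODF at `s` for `f := f'` (and `f'` itself: the difference is `0`) gives the fields `met`, `isom`, `lo`, `bd` of `Cls` with `B`. -/
def PODU_stmt : Prop := ∀ (d : ℕ) (Γ : Type) [Group Γ] [MulAction Γ (V d)] (K : Set (V d)) (m : ℕ) (Gs : V m → V d → V d →L[ℝ] V d) (b : ℕ → ℕ → ℝ) (S : ℝ), FdK Γ K → SFm Γ m Gs → ∃ B : ℕ → ℕ → ℝ, ∀ s0 : V m, ‖s0‖ ≤ S →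
  ∀ f : V d → ℝ, ContDiff ℝ ∞ f → Inv Γ f → (∀ (m' n : ℕ) (x : V d), ‖x‖ ≤ m' → ‖iteratedFDeriv ℝ n f x‖ ≤ b m' n) → NegativelyCurved (cfm f (Gs s0)) → ∃ (q : ℕ) (σ : ℝ), 1 ≤ q ∧ 0 < σ ∧
    ∀ s : V m, ‖s‖ ≤ S → ‖s - s0‖ ≤ σ → ∀ f' : V d → ℝ, ContDiff ℝ ∞ f' → Inv Γ f' → (∀ (m' n : ℕ) (x : V d), ‖x‖ ≤ m' → ‖iteratedFDeriv ℝ n f' x‖ ≤ b m' n) → (∀ n ≤ 2, DK K n (fun x => f x - f' x) σ) → Cls Γ K (1 / q) B (cfm f' (Gs s))

/-- **Row BC2U** (Borel-Cantelli for families, uniform in the parameter; medium; adaptation of helper64/VDI/BC2F.lean; from IUWD, VD.SED, PODU, VD.CFC, FBL, LBZ, VD.NNC, VD.MVE, RPQ.RSM). Same countable family of bad sets `(S1, q, T0)`, `B` from PODU with `S = S1`. Let `ζ` be good, `S` compact, all `cfm (rD χ ζ) (Gs s)`, `s ∈ S`, negatively curved; `S1 ∈ ℕ` with `‖s‖ + 1 ≤ S1` on `S`.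
`IsCompact.induction_on` for the property `p A = ∃ r1 > 0, ∀ s ∈ A, ∀ μ φ, ...` (empty set: `1`; subsets; unions: the maximum): for `s0 ∈ S` a neighbourhood `{s | ‖s - s0‖ < δ}` (within `S`). There: PODU gives `q`, `σ`; IUWD for `G = cfm (rD χ ζ) (Gs s0)` (`Cls` by PODU with `s = s0`) gives `T0`, `m'`, `s'`;
for `‖s - s0‖ ≤ δ` and `K'` large the metric `cfm (bD χ K' (v ζ)) (Gs s)` is in the class (PODU) and `s'`-close to `G` with one derivative on the ball `‖x‖ ≤ m'`: `G - cfm (bD ..) (Gs s) = exp (rD χ ζ) • (Gs s0 - Gs s) + (cfm (rD χ ζ) (Gs s) - cfm (bD ..) (Gs s))` (FBL, LBZ; CFC with the bounds of FBL). The rest as in BC2F: the constants do not depend on `s`. -/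
def BC2U_stmt : Prop := ∀ (d : ℕ) (Γ : Type) [Group Γ] [MulAction Γ (V d)] (K F0 : Set (V d)) (Cn : Set (V d) → ℕ → ℝ) (k0 : ℕ) (J : ℕ → ℕ) (p : (k : ℕ) → Fin (J k) → V d) (χ : (k : ℕ) → Fin (J k) → V d → ℝ) (m : ℕ) (Gs : V m → V d → V d →L[ℝ] V d),
  2 ≤ d → FdK Γ K → FDX Γ K F0 → FamD Γ K Cn k0 J p χ → SFm Γ m Gs → BCP Γ K F0 J χ Gs → ∀ (h : V d → ℝ) (e : ℝ), TD Γ h → 0 < e →
    ∀ᵐ ζ ∂PN, ∀ S : Set (V m), IsCompact S → (∀ s ∈ S, NegativelyCurved (cfm (rD χ ζ) (Gs s))) → ∃ r1 : ℝ, 0 < r1 ∧ ∀ s ∈ S, ∀ (μ : ℝ) (φ : V d → ℂ), r1 ≤ μ → Eigenfunction Γ (cfm (rD χ ζ) (Gs s)) μ φ →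
      |(∫ x in F0, h x * ‖φ x‖ ^ 2 ∂mv (cfm (rD χ ζ) (Gs s))) - mean (cfm (rD χ ζ) (Gs s)) F0 h * nn (cfm (rD χ ζ) (Gs s)) F0 φ| ≤ e * nn (cfm (rD χ ζ) (Gs s)) F0 φ

/-- **Row FNFU** (the statement for one exact fundamental domain, uniform; short; adaptation of helper32/VDI/FNF.lean and of `FND_que` in helper5/VD/FND.lean (the same proof for a set of metrics: `h`, `M`, `i`, `n`, `r1` do not depend on the metric); from BC2U, BC1B, FMD, SED, LND, MVE, RSM, APUE). -/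
def FNFU_stmt : Prop := ∀ (d : ℕ) (Γ : Type) [Group Γ] [MulAction Γ (V d)] (K F0 : Set (V d)), 2 ≤ d → FdK Γ K → FDX Γ K F0 → ∃ (k0 : ℕ) (J : ℕ → ℕ) (u : ℕ → ℕ → V d → ℝ), (∀ k, k0 ≤ k → 1 ≤ J k) ∧
  (∀ k j, ContDiff ℝ ∞ (u k j) ∧ Inv Γ (u k j) ∧ ∀ x, 0 ≤ u k j x) ∧
  (∀ L : Set (V d), IsCompact L → ∀ n : ℕ, ∃ c : ℕ → ℝ, Summable c ∧ ∀ (k : ℕ) (ξ : ℕ → ℝ), (∀ j, |ξ j| ≤ 1) → DK L n (fun x => ∑ j ∈ Finset.range (J k), ξ j * u k j x) (c k)) ∧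
  (∀ ζ : ℕ × ℕ → ℝ, (∀ q, |ζ q| ≤ 1) → ContDiff ℝ ∞ (fun x => ∑' k, ∑ j ∈ Finset.range (J k), ζ (k, j) * u k j x)) ∧
  ∀ (m : ℕ) (Gs : V m → V d → V d →L[ℝ] V d), SFm Γ m Gs → ∀ᵐ ζ ∂PN, ∀ S : Set (V m), IsCompact S →
    (∀ s ∈ S, NegativelyCurved (cfm (fun x => ∑' k, ∑ j ∈ Finset.range (J k), ζ (k, j) * u k j x) (Gs s))) → QUS Γ F0 ((fun s => cfm (fun x => ∑' k, ∑ j ∈ Finset.range (J k), ζ (k, j) * u k j x) (Gs s)) '' S)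

/-- **Row FNWU** (the final theorem of version B, uniform; short; adaptation of helper23/VDI/FNWF.lean; from FNFU, FTR, NGB, FPS, DFD, CFC, RSM). FTR (its first part: the integrals of invariant functions over `F` and `F0` agree, for every metric of the family) transfers `QUS` from `F0` to `F`: `h ‖φ‖²`, `‖φ‖²`, `h`, `1` are invariant. -/
def FNWU_stmt : Prop := ∀ (d : ℕ) (Γ : Type) [Group Γ] [MulAction Γ (V d)], 2 ≤ d →
    (∀ γ : Γ, ContDiff ℝ ∞ fun x : V d => γ • x) → (∀ (γ : Γ) (x : V d), γ • x = x → γ = 1) →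
    (∀ K : Set (V d), IsCompact K → {γ : Γ | ∃ x ∈ K, γ • x ∈ K}.Finite) → (∃ K : Set (V d), IsCompact K ∧ ∀ x : V d, ∃ γ : Γ, γ • x ∈ K) →
    ∃ (k₀ : ℕ) (J : ℕ → ℕ) (u : ℕ → ℕ → V d → ℝ), (∀ k, k₀ ≤ k → 1 ≤ J k) ∧
      (∀ k j, ContDiff ℝ ∞ (u k j) ∧ Inv Γ (u k j) ∧ ∀ x, 0 ≤ u k j x) ∧
      (∀ L : Set (V d), IsCompact L → ∀ n : ℕ, ∃ c : ℕ → ℝ, Summable c ∧ ∀ (k : ℕ) (ξ : ℕ → ℝ), (∀ j, |ξ j| ≤ 1) →
        ∀ x ∈ L, ‖iteratedFDeriv ℝ n (fun x => ∑ j ∈ Finset.range (J k), ξ j * u k j x) x‖ ≤ c k) ∧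
      (∀ ξ : ℕ × ℕ → ℝ, (∀ q, |ξ q| ≤ 1) → ContDiff ℝ ∞ (fun x => ∑' k, ∑ j ∈ Finset.range (J k), ξ (k, j) * u k j x)) ∧
      ∀ (m : ℕ) (Gs : V m → V d → V d →L[ℝ] V d), (ContDiff ℝ ∞ fun q : V m × V d => Gs q.1 q.2) → (∀ s, IsMetric (Gs s)) → (∀ s, IsoE Γ (Gs s)) →
        (∀ᵐ ξ ∂(Measure.infinitePi fun _ : ℕ × ℕ => UN), ∀ S : Set (V m), IsCompact S → (∀ s ∈ S, NegativelyCurved (cfm (fun x => ∑' k, ∑ j ∈ Finset.range (J k), ξ (k, j) * u k j x) (Gs s))) →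
          ∀ F : Set (V d), IsFundamentalDomain Γ F (volume : Measure (V d)) → QUS Γ F ((fun s => cfm (fun x => ∑' k, ∑ j ∈ Finset.range (J k), ξ (k, j) * u k j x) (Gs s)) '' S)) ∧
        ∀ S : Set (V m), IsCompact S → (∀ s ∈ S, NegativelyCurved (Gs s)) → ∀ (L : Set (V d)) (n₀ : ℕ) (τ : ℝ), IsCompact L → 0 < τ → 0 < (Measure.infinitePi fun _ : ℕ × ℕ => UN) {ξ : ℕ × ℕ → ℝ |
          (∀ n ≤ n₀, ∀ x ∈ L, ‖iteratedFDeriv ℝ n (fun x => ∑' k, ∑ j ∈ Finset.range (J k), ξ (k, j) * u k j x) x‖ ≤ τ) ∧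
          (∀ s ∈ S, NegativelyCurved (cfm (fun x => ∑' k, ∑ j ∈ Finset.range (J k), ξ (k, j) * u k j x) (Gs s))) ∧
          ∀ F : Set (V d), IsFundamentalDomain Γ F (volume : Measure (V d)) → QUS Γ F ((fun s => cfm (fun x => ∑' k, ∑ j ∈ Finset.range (J k), ξ (k, j) * u k j x) (Gs s)) '' S)}

end

end Pool.Agent.VDI
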